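import Pool.Agent.Lib.MP_2e793b_nt.Iface

set_option autoImplicit false

namespace Pool.Agent.Lib.MP_2e793b_nt.H47

open Finset
open scoped Classical

/-- one-sided Abel summation -/
theorem abel_low (d f : ℕ → ℝ) (C : ℝ) (Y : ℕ)
    (hf : ∀ n, Y ≤ n → f (n + 1) ≤ f n)
    (hD : ∀ t, Y ≤ t → -C ≤ ∑ n ∈ Ioc Y t, d n) :
    ∀ Z, Y ≤ Z → (∑ n ∈ Ioc Y Z, d n) * f Z - C * (f Y - f Z) ≤ ∑ n ∈ Ioc Y Z, d n * f n := by
  intro Z hZ
  induction Z, hZ using Nat.le_induction with
  | base => simp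
  | succ Z hZ ih =>
    rw [← Finset.insert_Ioc_right_eq_Ioc_add_one hZ, Finset.sum_insert (by simp), Finset.sum_insert (by simp)]
    have h1 := hD Z hZ
    have h2 := hf Z hZ
    nlinarith [mul_le_mul_of_nonneg_right h1 (sub_nonneg.2 h2)]

theorem loglog_step (n : ℕ) (hn : 3 ≤ n) :
    Real.log (Real.log (n + 1 : ℕ)) - Real.log (Real.log n) -
      (1 / Real.log n - 1 / Real.log (n + 1 : ℕ)) ≤
      (Real.log (n + 1 : ℕ) - Real.log n) * (1 / Real.log (n + 1 : ℕ)) := by
  have hn0 : (3 : ℝ) ≤ n := by exact_mod_cast hn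
  have hL : 1 ≤ Real.log n := by
    rw [Real.le_log_iff_exp_le (by linarith)]
    linarith [Real.exp_one_lt_d9]
  have hn1 : ((n + 1 : ℕ) : ℝ) = n + 1 := by push_cast; ring
  have hLL : Real.log n ≤ Real.log (n + 1 : ℕ) := by
    apply Real.log_le_log (by linarith)
    rw [hn1]; linarith
  have hx : Real.log (n + 1 : ℕ) - Real.log n ≤ 1 := by
    rw [← Real.log_div (by rw [hn1]; linarith) (by linarith)]
    have h1 : ((n + 1 : ℕ) : ℝ) / n ≤ 2 := by
      rw [hn1, div_le_iff₀ (by linarith)]; linarith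
    have h2 : Real.log (((n + 1 : ℕ) : ℝ) / n) ≤ ((n + 1 : ℕ) : ℝ) / n - 1 :=
      Real.log_le_sub_one_of_pos (by rw [hn1]; positivity)
    linarith
  set L := Real.log n with hLdef
  set M := Real.log (n + 1 : ℕ) with hMdef
  have hL0 : 0 < L := by linarith
  have hM0 : 0 < M := by linarith
  have h3 : Real.log M - Real.log L ≤ (M - L) / L := by
    rw [← Real.log_div (by linarith) (by linarith)]
    have := Real.log_le_sub_one_of_pos (div_pos hM0 hL0)
    have h4 : M / L - 1 = (M - L) / L := by field_simp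
    linarith
  have h5 : (M - L) / L ≤ (M - L) * (1 / M) + (1 / L - 1 / M) := by
    have h6 : (M - L) * (1 / M) + (1 / L - 1 / M) - (M - L) / L = (M - L) * (1 - (M - L)) / (L * M) := by
      field_simp; ring
    have h7 : 0 ≤ (M - L) * (1 - (M - L)) / (L * M) := by
      apply div_nonneg _ (by positivity)
      exact mul_nonneg (by linarith) (by linarith)
    linarith
  linarith

theorem loglog_sum (Y : ℕ) (hY : 3 ≤ Y) : ∀ Z, Y ≤ Z →
    Real.log (Real.log Z) - Real.log (Real.log Y) - (1 / Real.log Y - 1 / Real.log Z) ≤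
      ∑ n ∈ Ioc Y Z, (Real.log n - Real.log (n - 1 : ℕ)) * (1 / Real.log n) := by
  intro Z hZ
  induction Z, hZ using Nat.le_induction with
  | base => simp
  | succ Z hZ ih =>
    rw [← Finset.insert_Ioc_right_eq_Ioc_add_one hZ, Finset.sum_insert (by simp)]
    have := loglog_step Z (le_trans hY hZ)
    simp only [Nat.add_sub_cancel]
    linarith

theorem log_sum (Y : ℕ) : ∀ Z, Y ≤ Z →
    ∑ n ∈ Ioc Y Z, (Real.log n - Real.log (n - 1 : ℕ)) = Real.log Z - Real.log Y := by
  intro Z hZ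
  induction Z, hZ using Nat.le_induction with
  | base => simp
  | succ Z hZ ih =>
    rw [← Finset.insert_Ioc_right_eq_Ioc_add_one hZ, Finset.sum_insert (by simp), ih]
    simp only [Nat.add_sub_cancel]
    ring

theorem phlow (h : PhtStmt) : PhlowStmt := by
  obtain ⟨c, C, y₀, hc, H⟩ := h
  refine ⟨c, |C| + c, max y₀ 3, hc, ?_⟩
  intro a Y Z hY hYZ ha hsq hlog
  have hY0 : y₀ ≤ Y := le_trans (le_max_left _ _) hY
  have hY3 : 3 ≤ Y := le_trans (le_max_right _ _) hY
  have hlogpos : ∀ n : ℕ, Y ≤ n → 1 ≤ Real.log n := by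
    intro n hn
    have hn0 : (3 : ℝ) ≤ n := by exact_mod_cast le_trans hY3 hn
    rw [Real.le_log_iff_exp_le (by linarith)]
    linarith [Real.exp_one_lt_d9]
  set d : ℕ → ℝ := fun n => (if PP a n then Real.log n / n else 0) -
    c * (Real.log n - Real.log (n - 1 : ℕ)) with hd
  set f : ℕ → ℝ := fun n => 1 / Real.log n with hf
  have hfanti : ∀ n, Y ≤ n → f (n + 1) ≤ f n := by
    intro n hn
    simp only [hf]
    apply one_div_le_one_div_of_le
    · linarith [hlogpos n hn]
    · have hn0 : (3 : ℝ) ≤ n := by exact_mod_cast le_trans hY3 hn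
      apply Real.log_le_log (by linarith)
      push_cast; linarith
  have hD : ∀ t, Y ≤ t → -|C| ≤ ∑ n ∈ Ioc Y t, d n := by
    intro t ht
    have h1 := H a Y t hY0 ht ha hsq hlog
    rw [Finset.sum_filter] at h1
    simp only [hd]
    rw [Finset.sum_sub_distrib, ← Finset.mul_sum, log_sum Y t ht]
    linarith [le_abs_self C]
  have h2 := abel_low d f |C| Y hfanti hD Z hYZ
  have h3 := hD Z hYZ
  have hfZ : 0 ≤ f Z := by
    simp only [hf]
    have := hlogpos Z hYZ
    positivity
  have hfY : f Y ≤ 1 := by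
    simp only [hf]
    rw [div_le_one (by linarith [hlogpos Y le_rfl])]
    exact hlogpos Y le_rfl
  have hfY0 : 0 ≤ f Y := le_trans hfZ (by
    have : ∀ Z, Y ≤ Z → f Z ≤ f Y := by
      intro Z hZ
      induction Z, hZ using Nat.le_induction with
      | base => exact le_rfl
      | succ Z hZ ih => exact le_trans (hfanti Z hZ) ih
    exact this Z hYZ)
  have h4 : ∑ n ∈ Ioc Y Z, d n * f n =
      (∑ p ∈ (Ioc Y Z).filter (fun p => PP a p), (1 : ℝ) / p) -
      c * ∑ n ∈ Ioc Y Z, (Real.log n - Real.log (n - 1 : ℕ)) * (1 / Real.log n) := by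
    rw [Finset.sum_filter, Finset.mul_sum, ← Finset.sum_sub_distrib]
    apply Finset.sum_congr rfl
    intro n hn
    have hn' := (Finset.mem_Ioc.1 hn).1
    have hl := hlogpos n hn'.le
    simp only [hd, hf]
    split_ifs
    · field_simp
    · ring
  have h5 := loglog_sum Y hY3 Z hYZ
  have h6 : Real.log (Real.log Z / Real.log Y) = Real.log (Real.log Z) - Real.log (Real.log Y) :=
    Real.log_div (by linarith [hlogpos Z hYZ]) (by linarith [hlogpos Y le_rfl])
  rw [h6]
  have h7 : -|C| * f Z ≤ (∑ n ∈ Ioc Y Z, d n) * f Z := mul_le_mul_of_nonneg_right h3 hfZ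
  have h8 : c * (Real.log (Real.log Z) - Real.log (Real.log Y) - (1 / Real.log Y - 1 / Real.log Z)) ≤
      c * ∑ n ∈ Ioc Y Z, (Real.log n - Real.log (n - 1 : ℕ)) * (1 / Real.log n) :=
    mul_le_mul_of_nonneg_left h5 hc.le
  have h9 : |C| * f Y ≤ |C| := by
    have := mul_le_mul_of_nonneg_left hfY (abs_nonneg C)
    linarith
  have h10 : c * (1 / Real.log Y - 1 / Real.log Z) ≤ c := by
    have h11 : 1 / Real.log Y - 1 / Real.log Z ≤ 1 := by
      have : 1 / Real.log Y ≤ 1 := hfY
      have h12 : 0 ≤ 1 / Real.log Z := hfZ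
      linarith
    have := mul_le_mul_of_nonneg_left h11 hc.le
    linarith
  rw [h4] at h2
  nlinarith

end Pool.Agent.Lib.MP_2e793b_nt.H47
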